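import Mathlib
import Pool.Agent.Helper354.PercFinal

set_option autoImplicit false

open MeasureTheory
open scoped NNReal

namespace Pool.Agent.Results.MP_d2b88b_pr.TwoInfiniteClusters

/-- There are a connected bounded degree graph `G` rough isometric to `ℤ²` and a `p` such that
Bernoulli bond percolation on `G` has two distinct infinite clusters with positive probability. -/
theorem result : ∃ (V : Type) (G : SimpleGraph V), G.Connected ∧
    (∃ D : ℕ, ∀ v : V, (G.neighborSet v).encard ≤ (D : ℕ∞)) ∧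
    (∃ (f : V → (Fin 2 → ℤ)) (C K : ℕ),
      (∀ x y : V, (∑ i, |f x i - f y i|) ≤ (C : ℤ) * (G.dist x y : ℤ) + (K : ℤ) ∧
        (G.dist x y : ℤ) ≤ (C : ℤ) * (∑ i, |f x i - f y i|) + (K : ℤ)) ∧
      ∀ z : Fin 2 → ℤ, ∃ x : V, (∑ i, |z i - f x i|) ≤ (K : ℤ)) ∧
    ∃ (p : ℝ≥0) (hp : p ≤ 1) (A : Set (G.edgeSet → Bool)), MeasurableSet A ∧
      0 < Measure.infinitePi (fun _ : G.edgeSet => (PMF.bernoulli p hp).toMeasure) A ∧
      ∀ ω ∈ A, ∃ c₁ c₂ : (SimpleGraph.fromEdgeSet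
          {e : Sym2 V | ∃ h : e ∈ G.edgeSet, ω ⟨e, h⟩ = true}).ConnectedComponent,
        c₁.supp.Infinite ∧ c₂.supp.Infinite ∧ c₁ ≠ c₂ := by
  obtain ⟨n, p, hp, A, hA, hpos, h⟩ := Pool.Helper354.Perc.counterexample
  exact ⟨Pool.Helper354.Perc.Vt n, Pool.Helper354.Perc.gr n, Pool.Helper354.Perc.gr_connected,
    Pool.Helper354.Perc.gr_degree, Pool.Helper354.Perc.gr_rough, p, hp, A, hA, hpos, h⟩

end Pool.Agent.Results.MP_d2b88b_pr.TwoInfiniteClusters
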